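import Mathlib
import Pool.Agent.Helper832.GDStmt
import Pool.Agent.H570Z.BDefs
import Pool.Agent.H570Z.BE

set_option autoImplicit false

namespace Pool.Agent.Results.MP_4953ed_an.AllInfinite

open Pool.Agent.Helper832.GS Pool.Agent.H570Z.BN

/-- The small dimension, the global dimension and the bidimension of `C(βℕ)` are infinite; the
one-dimensional module of every point of `βℕ ∖ ℕ` has infinite homological dimension. -/
theorem result :
    ds C(Ultrafilter ℕ, ℂ) = ⊤ ∧ dg C(Ultrafilter ℕ, ℂ) = ⊤ ∧ dbU C(Ultrafilter ℕ, ℂ) = ⊤ ∧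
      ∀ p : Ultrafilter ℕ, (∀ k : ℕ, p ≠ pure k) → (pointMod p).dh = ⊤ :=
  ⟨ds_top, dg_top, dbU_top, fun _ hp => dh_point hp⟩

end Pool.Agent.Results.MP_4953ed_an.AllInfinite
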